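import Mathlib
import Pool.Agent.H43.G.R_seed8.H376R2.MR.Defs

/-!
# Project KS (helper240), number theory part: definitions

Exceptional sets for primes in short intervals, by Heath-Brown's identity and large values of Dirichlet
polynomials at integer frequencies. `Y` is the logarithm of the main parameter, windows are tents of
half-width `1/20` in `log n`.
-/

set_option autoImplicit false

namespace Pool.Agent.Q240.KS

open Finset Pool.Agent.H376R2.MR

/-- coefficients of the factors: the tent `w (20 log n - d) / n`, times `μ(n) 1_{n ≤ z}` (`t = 0`),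
times `1` (`t = 1`), times `log n` (`t = 2`) -/
noncomputable def cf (z : ℕ) (t : Fin 3) (d n : ℕ) : ℝ :=
  (if t = 0 then (if n ≤ z then ((ArithmeticFunction.moebius n : ℤ) : ℝ) else 0)
    else if t = 1 then 1 else Real.log n) * w (20 * Real.log n - d) / n

/-- a finite set that contains the support of `cf z t d` -/
noncomputable def sp (d : ℕ) : Finset ℕ := Icc 1 ⌊Real.exp (((d : ℝ) + 1) / 20)⌋₊

/-- the factors `P(k) = ∑ cf(n) n^{-ik}` -/
noncomputable def PF (z : ℕ) (t : Fin 3) (d : ℕ) (k : ℤ) : ℂ :=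
  DP (sp d) (fun n => ((cf z t d n : ℝ) : ℂ)) k

/-- the types of the ten factors: `0..4` Moebius, `5..8` smooth, `9` smooth with a logarithm -/
def ty (i : Fin 10) : Fin 3 := if (i : ℕ) < 5 then 0 else if (i : ℕ) < 9 then 1 else 2

/-- the product of the ten factors -/
noncomputable def EE (z : ℕ) (d : Fin 10 → ℕ) (k : ℤ) : ℂ := ∏ i, PF z (ty i) (d i) k

/-- the coefficient of the tuple `d` in Heath-Brown's identity; the factor of type `0` or `1` with `d i = 0`
is the constant `1` -/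
def ed (d : Fin 10 → ℕ) : ℤ := ∑ j ∈ Icc 1 5, (-1) ^ (j + 1) * ((Nat.choose 5 j : ℕ) : ℤ) *
  (if ∀ i : Fin 10, ((j ≤ (i : ℕ) ∧ (i : ℕ) < 5) ∨ (4 + j ≤ (i : ℕ) ∧ (i : ℕ) < 9)) → d i = 0 then 1 else 0)

/-- the tuples whose product is near `e^Y` -/
noncomputable def DY (Y : ℝ) : Finset (Fin 10 → ℕ) :=
  (Fintype.piFinset fun _ => range (⌊20 * (Y + 1)⌋₊ + 1)).filter
    (fun d => |(∑ i, (d i : ℝ)) / 20 - Y| ≤ 1)

/-- the Dirichlet polynomial of the von Mangoldt function near `e^Y` -/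
noncomputable def AA (z : ℕ) (Y : ℝ) (k : ℤ) : ℂ := ∑ d ∈ DY Y, (ed d : ℂ) * EE z d k

/-- the parameter of Heath-Brown's identity -/
noncomputable def zY (Y : ℝ) : ℕ := ⌊Real.exp ((Y + 2) / 5)⌋₊

/-- the Halász kernel `∑ Wt(log n - log N) n^{-1-iτ}` -/
noncomputable def kn (N : ℝ) (τ : ℤ) : ℂ :=
  ∑ n ∈ Icc 1 ⌊Real.exp 3 * N⌋₊, ((Wt (Real.log n - Real.log N) / n : ℝ) : ℂ) * ch τ (Real.log n)

/-- difference of two Fejer multipliers -/
noncomputable def mK (K₁ K : ℕ) (k : ℤ) : ℝ := max 0 (1 - |(k : ℝ)| / K) - max 0 (1 - |(k : ℝ)| / K₁)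

/-- the truncated Moebius function -/
noncomputable def Mz (z : ℕ) : ArithmeticFunction ℝ :=
  ⟨fun n => if n ≤ z then ((ArithmeticFunction.moebius n : ℤ) : ℝ) else 0, by simp⟩

/-- the grid class of a nonnegative number `x`: `0` if `x > e^{-s}`, `j` if `e^{-(j+1)s} < x ≤ e^{-js}`,
at most `G` -/
noncomputable def cg (G : ℕ) (s x : ℝ) : ℕ := ((Icc 1 G).filter (fun j : ℕ => x ≤ Real.exp (-(j * s)))).card

/-- the class of the frequencies `K₀ ≤ |k| < K`, `2^r ≤ |k| < 2^(r+1)` on which the ten factors have the grid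
classes `g` -/
noncomputable def LS (Y : ℝ) (G : ℕ) (s : ℝ) (K₀ K r : ℕ) (d g : Fin 10 → ℕ) : Finset ℤ :=
  (FK K).filter (fun k => (K₀ : ℤ) ≤ |k| ∧ (2 : ℤ) ^ r ≤ |k| ∧ |k| < (2 : ℤ) ^ (r + 1) ∧
    ∀ i, cg G s ‖PF (zY Y) (ty i) (d i) k‖ = g i)

/-- the number of primes in `(y, y + h]` -/
noncomputable def pic (y h : ℝ) : ℕ := ((Ioc ⌊y⌋₊ ⌊y + h⌋₊).filter Nat.Prime).card

/-- the sum of `Λ(n)/n` over `v ≤ log n ≤ v + h` -/
noncomputable def SL (v h : ℝ) : ℝ :=
  ∑ n ∈ (Icc 1 ⌊Real.exp (v + h)⌋₊).filter (fun n : ℕ => v ≤ Real.log n), ArithmeticFunction.vonMangoldt n / n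

end Pool.Agent.Q240.KS
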