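import Mathlib
import Pool.Agent.H43.G.R_pool_sql_team_seeded_3997aac3.Q240.KS.Defs

/-!
# Project KS (helper240), number theory part: statements with complete proofs

Every statement is a `Prop` with a complete proof in its docstring. Constants are not optimised; `C` denotes
constants that may change from line to line. Library theorems that are cited (all in the graded repository, with
standard axioms): `Pool.Agent.H376R2.MR.mv` (file `Mv.lean`), `phase_sum` (`Phas.lean`), `Fj_nonneg`, `Fj_le`,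
`Fj_le_sq`, `fej_exp`, `fej_eq_norm` (`Fej.lean`), `Pool.Agent.Q53.CR.sdb : Pool.Agent.Q236.CR.S_SDB` (second derivative
test), `Pool.Agent.W347.EH.kt : Pool.Agent.W186.EH.S_KT` (k-th derivative test),
`Pool.Agent.Y957.VK.mob_all : S_MOB` (file `Y957/VK/Fin1.lean`), the divisor bound `divisor_bound` in
`Pool/Agent/Helper112/Arith.lean`, Hoheisel's theorem `hoheisel` in `Pool/Agent/H295R3/Hoheisel.lean` and the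
Brun-Titchmarsh inequality `bt2 : Pool.Agent.H469R10.HO.BT2` in `Pool/Agent/H902R3/Task469C.lean`.
-/

set_option autoImplicit false

namespace Pool.Agent.Q240.KS

open Finset Pool.Agent.H376R2.MR

/-! ### Heath-Brown's identity -/

/-- **HB** (Heath-Brown's identity with `J = 5`). Proof. Work in the commutative ring of arithmetic functions with real
values. Let `M = Mz z`, `ζ` the constant function one, `η = 1 - ζ M`. For `1 ≤ n ≤ z` one has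
`(ζ M)(n) = ∑_{d ∣ n} μ(d) = 1(n)`, so `η(n) = 0` for `n ≤ z`, and `η^5(n) = 0` for `n < (z+1)^5` (in a nonzero term
`n = n₁ ⋯ n₅` every `n_i ≥ z + 1`; induction on the power). Hence `(Λ * η^5)(n) = 0` for `1 ≤ n < (z+1)^5`. By the binomial
theorem `Λ η^5 = Λ + ∑_{j=1}^5 (-1)^j C(5,j) Λ ζ^j M^j` and `Λ ζ = log` (`ArithmeticFunction.vonMangoldt_mul_zeta`), so
`Λ ζ^j M^j = M^j ζ^{j-1} log`. -/
def S_HB : Prop := ∀ z n : ℕ, 1 ≤ z → 1 ≤ n → n < (z + 1) ^ 5 →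
  ArithmeticFunction.vonMangoldt n = ∑ j ∈ Icc 1 5, (-1 : ℝ) ^ (j + 1) * (Nat.choose 5 j : ℝ) *
    ((Mz z) ^ j * ((ArithmeticFunction.zeta : ArithmeticFunction ℕ) : ArithmeticFunction ℝ) ^ (j - 1) *
      ArithmeticFunction.log) n

/-- **TUP**: the decomposition into tuples (from HB). Proof. For `n' ≥ 1` one has `∑_{d ≥ 0} w (20 log n' - d) = 1`
(tents; `20 log n' ≥ 0`). For a tuple `d` put
`T_d(n) = ∑ ∏_i cf (zY Y) (ty i) (d i) (n_i)`, the sum over all `(n_0, …, n_9)` of positive integers with product `n`. Expanding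
the product, `EE z d k = ∑_n T_d(n) n^{-ik}`, because `ch k (log m) ch k (log n) = ch k (log (m n))` and `cf z t d n = 0` for
`n ∉ sp d`, `n ≥ 1`. If `T_d(n) ≠ 0` then `|log n_i - d_i / 20| < 1/20` for all `i`, so `|log n - (∑ d_i)/20| < 1/2`. Let
`a n = ∑_{d ∈ DY Y} ed d T_d(n)`.
(1) If `d ∈ DY Y` and `T_d(n) ≠ 0` then `|log n - Y| < 3/2`. This gives the last property and the first one (all `n` that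
occur are `≤ e^{Y + 3/2}`).
(2) If `|log n - Y| ≤ 1/2` and `T_d(n) ≠ 0` then `|(∑ d_i)/20 - Y| < 1`, in particular `d_i ≤ 20 (Y + 1)`, so `d ∈ DY Y`;
hence `a n = ∑ ed d T_d(n)` over ALL tuples `d` (finitely many nonzero terms, e.g. `d_i ≤ 20 log n + 1`). Insert the
definition of `ed`; for fixed `j` the tuples have `d_i = 0` for `j ≤ i < 5` and for `4 + j ≤ i < 9`. For such an `i` the
factor `cf z t 0 (n_i)` (`t = 0, 1`) is `1` if `n_i = 1` and `0` otherwise, since `w (20 log n) = 0` for `n ≥ 2`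
(`20 log 2 > 1`), `μ(1) = 1`, `z ≥ 1`. For the other indices sum over `d_i` by the partition of unity. What is left is
`(1/n) (M^j ζ^{j-1} log)(n)` (`∏ 1/n_i = 1/n`; a power/product of arithmetic functions evaluated at `n` is the sum over
factorisations `n = ∏ n_i`). By HB, `a n = Λ(n)/n`, because `n ≤ e^{Y+1/2} < e^{Y+2} ≤ (zY Y + 1)^5`.
(3) `|ed d| ≤ ∑_j C(5, j) = 31`, and `|a n| ≤ 31 ∑_d |T_d(n)| ≤ 31 (log n)/n · #{(n_i) : ∏ n_i = n} ≤ 31 (log n) τ(n)^{10} / n`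
by the partition of unity and because the `n_i` are divisors of `n`. With the divisor bound `τ(n) ≤ C n^{ε/40}` and
`n ≤ e^{Y+3/2}` this is `≤ e^{ε Y}/n` for `Y ≥ Y₀`. (For `|log n - Y| > 3/2` both sides are fine since `a n = 0`.)
Remark: it may be convenient to write finite products as iterated Dirichlet convolutions of ten arithmetic functions. -/
def S_TUP : Prop := ∀ ε : ℝ, 0 < ε → ∃ Y₀ : ℝ, ∀ Y : ℝ, Y₀ ≤ Y → ∃ a : ℕ → ℝ,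
  (∀ k : ℤ, AA (zY Y) Y k = DP (Icc 1 ⌊Real.exp (Y + 3 / 2)⌋₊) (fun n => ((a n : ℝ) : ℂ)) k) ∧
  (∀ n : ℕ, 1 ≤ n → |Real.log n - Y| ≤ 1 / 2 → a n = ArithmeticFunction.vonMangoldt n / n) ∧
  (∀ n : ℕ, 1 ≤ n → |a n| ≤ Real.exp (ε * Y) / n) ∧
  (∀ n : ℕ, 1 ≤ n → 3 / 2 < |Real.log n - Y| → a n = 0)

/-! ### Poor intervals and Fejer sums -/

/-- **FJL**: lower bound of the Fejer kernel. Proof. `Fj K u = (1/K) (sin (K u/2) / sin (u/2))^2` for `0 < |u| ≤ 1`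
(from `fej_eq_norm`: geometric sum), `|sin (K u / 2)| ≥ (2/π) K |u| / 2` as `K |u| / 2 ≤ 1/2 ≤ π/2`, and
`|sin (u/2)| ≤ |u|/2`. For `u = 0` the value is `K`. -/
def S_FJL : Prop := ∀ (K : ℕ) (u : ℝ), 1 ≤ K → |u| ≤ 1 / K → 4 / Real.pi ^ 2 * K ≤ Fj K u

/-- **BTL**: Brun-Titchmarsh for `Λ(n)/n` on short intervals of `log n`. Proof. The integers with `v ≤ log n ≤ v + h` lie in
`(A, A + H]` with `A = ⌈e^v⌉ - 1`, `H ≤ e^v (e^h - 1) + 2 ≤ 2 h e^v + 2`, and `h e^v ≥ e^{(1-θ) Y - 1}` is large; put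
`H = ⌈4 h e^v⌉`. `bt2` (with `ε = 1`): at most `3 H / log H ≤ C h e^v / Y` primes (`log H ≥ (1-θ) Y - 1`). Each has
`Λ(p)/p ≤ (v + h) e^{-v} ≤ (Y + 2) e^{-v}`: contribution `≤ C h`. Proper prime powers `p^k ≤ e^{Y+2}`, `k ≥ 2`, are
determined by `k ≤ 2 Y + 4` and `p`; for fixed `k` the number in `(A, A + H]` is at most `H A^{-1/2} + 2` (the k-th roots lie
in an interval of length `≤ H A^{1/k - 1} ≤ H A^{-1/2}`). Their contribution is `≤ (2Y + 4)(H e^{-v/2} · 2 + 2)(Y + 2) e^{-v}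
≤ h` for large `Y`, as `h ≥ e^{-θ Y}`, `θ < 1`. -/
def S_BTL : Prop := ∀ θ : ℝ, 0 < θ → θ < 1 → ∃ C Y₀ : ℝ, 1 ≤ C ∧ ∀ Y v h : ℝ, Y₀ ≤ Y → |v - Y| ≤ 1 →
  Real.exp (-(θ * Y)) ≤ h → h ≤ 1 → SL v h ≤ C * h

/-- **HOL**: Hoheisel's theorem in the same form. Proof. Let `δ, η, X₀` be as in `hoheisel`, `ε₄ = min (δ/10) (1/20)`. With
`X = ⌊e^v⌋`, `Y' = ⌊e^{v+h}⌋ - ⌊e^v⌋` one has `Y' ≥ h e^v - 1 ≥ h e^v / 2`, `Y' ≤ X` and `Y' ≥ X^{1-δ}` for large `Y`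
(`h e^v ≥ e^{v - 4 ε₄ Y}`, `4 ε₄ Y + log 2 ≤ δ v` as `v ≥ Y - 1/2`). The primes in `(X, X + Y']` satisfy
`v < log p ≤ v + h`, so `SL v h ≥ η Y' / log X · v e^{-(v+h)} ≥ (η / 2) (v / v) h e^{-h} ≥ (η/8) h`. -/
def S_HOL : Prop := ∃ ε₄ c Y₀ : ℝ, 0 < ε₄ ∧ ε₄ ≤ 1 / 20 ∧ 0 < c ∧ ∀ Y v h : ℝ, Y₀ ≤ Y → |v - Y| ≤ 1 / 2 →
  Real.exp (-(4 * ε₄ * Y)) ≤ h → h ≤ 1 / 100 → c * h ≤ SL v h

/-- **FE**: a poor interval gives a large exponential sum (from FJL, BTL, HOL). Proof. Let `K₀ = ⌈e^{ε₃ Y}⌉`, `K₁ = K₀^3`,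
`K = ⌈L₀ e^Y / h⌉`, `u₀ = log (y + h/2)`; `|u₀ - Y| ≤ 0.41` for large `Y`. Let `A(k) = DP … a k` and for any `K'`
`F_{K'} = ∑_n a_n Fj K' (log n - u₀) = Re ∑_{|k| < K'} (1 - |k|/K') e^{i k u₀} A(k)` (`fej_exp`).
(a) `F_{K₁} ≥ c₅` with `c₅ = c_H / 4` (`c_H` from HOL): terms with `|log n - Y| > 1/2` have
`0.09 ≤ |log n - u₀| ≤ 1.91 < π`, so by `Fj_le_sq` their sum is at most `∑_n e^{ε₃ Y/4}/n · π² / (0.0081 K₁) ≤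
C (Y + 3) e^{ε₃ Y / 4 - 3 ε₃ Y}`, small. The other terms are nonnegative, and those with `u₀ ≤ log n ≤ u₀ + 1/K₁` give by
FJL and HOL (`h := 1/K₁ ≥ e^{-4 ε₄ Y}` because `K₁ ≤ (e^{ε₃ Y} + 1)^3 ≤ e^{4 ε₄ Y}`) at least `(4/π²) K₁ c_H / K₁`.
(b) `F_K ≤ c₅ / 2`: terms with `|log n - Y| > 1/2`: small as in (a) (`K ≥ K₁`, see (c)). Let `|log n - Y| ≤ 1/2`, `a_n = Λ(n)/n`.
If `n ≤ y` then `log n - u₀ ≤ - (h/2)/(y + h/2) ≤ - h / (5 e^Y)`, if `n > y + h` then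
`log n - u₀ ≥ (h/2)/(y + h) ≥ h/(5 e^Y)`, and `h / (5 e^Y) ≥ D / K` with `D = L₀ / 5`. Cut the range `|log n - u₀| ≥ D/K` into
pieces `j/K ≤ ± (log n - u₀) ≤ (j+1)/K`, `j ≥ ⌊D⌋`; on each piece `Fj K ≤ π² K / j²` and BTL (with `1 - θ/2` in place of `θ`,
`1/K ≥ e^{-(1 - θ/2) Y}`) gives mass `≤ C_B / K`. Total `≤ 2 π² C_B ∑_{j ≥ ⌊D⌋} j^{-2} ≤ c₅ / 8` for `L₀` large. Terms with
`y < n ≤ y + h`: `Fj K ≤ K ≤ 2 L₀ e^Y / h`; primes: fewer than `c h / Y` with `Λ(p)/p ≤ 2 Y / y`, `y ≥ e^{Y - 2/5}`: at most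
`2 L₀ e^Y / h · c h / Y · 2 Y e^{2/5 - Y} ≤ 6 L₀ c ≤ c₅ / 8` for `c` small; proper prime powers: at most
`∑_{2 ≤ k ≤ 2 Y} (h y^{1/k - 1} + 1) ≤ 2 Y (h y^{-1/2} + 1)` of them, contribution
`≤ 2 L₀ e^Y / h · 2 Y (h y^{-1/2} + 1) · 2 Y / y`, small since `h ≥ e^{θ Y}`.
(c) `K ≥ L₀ e^{4 ε₃ Y} ≥ (e^{ε₃ Y} + 1)^3 ≥ K₁` for large `Y`, so `0 ≤ mK K₁ K k ≤ 1`. Now
`c₅ / 2 ≤ F_{K₁} - F_K = - Re ∑_{|k| < K} mK K₁ K k e^{i k u₀} A(k)`. The part `|k| < K₀` is at most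
`2 K₀ · (K₀ / K₁) · ∑ |a_n| ≤ 2 K₀^{-1} e^{ε₃ Y / 4} (Y + 3)`, small (for `|k| < K₁`: `mK = |k| (1/K₁ - 1/K) ≤ |k|/K₁`). So
`c₃ = c₅ / 4` works. -/
def S_FE : Prop := ∃ ε₄ : ℝ, 0 < ε₄ ∧ ε₄ ≤ 1 / 20 ∧ ∀ ε₃ θ : ℝ, 0 < ε₃ → ε₃ ≤ ε₄ → 0 < θ → θ < 1 →
  ∃ c c₃ L₀ Y₀ : ℝ, 0 < c ∧ 0 < c₃ ∧ 1 ≤ L₀ ∧ ∀ Y : ℝ, Y₀ ≤ Y → ∀ a : ℕ → ℝ,
    (∀ n : ℕ, 1 ≤ n → |Real.log n - Y| ≤ 1 / 2 → a n = ArithmeticFunction.vonMangoldt n / n) →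
    (∀ n : ℕ, 1 ≤ n → |a n| ≤ Real.exp (ε₃ / 4 * Y) / n) →
    (∀ n : ℕ, 1 ≤ n → 3 / 2 < |Real.log n - Y| → a n = 0) →
    ∀ y h : ℝ, 0 < y → |Real.log y - Y| ≤ 2 / 5 → Real.exp (θ * Y) ≤ h → h ≤ Real.exp ((1 - 4 * ε₃) * Y) →
      (pic y h : ℝ) < c * h / Y →
      c₃ ≤ ‖∑ k ∈ (FK ⌈L₀ * Real.exp Y / h⌉₊).filter (fun k => (⌈Real.exp (ε₃ * Y)⌉₊ : ℤ) ≤ |k|),
        ((mK (⌈Real.exp (ε₃ * Y)⌉₊ ^ 3) ⌈L₀ * Real.exp Y / h⌉₊ k : ℝ) : ℂ) *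
          Complex.exp (((k : ℝ) * Real.log (y + h / 2) : ℝ) * Complex.I) *
          DP (Icc 1 ⌊Real.exp (Y + 3 / 2)⌋₊) (fun n => ((a n : ℝ) : ℂ)) k‖

/-- **LSD**: the dual form of the large sieve. Proof (duality). For complex `b_u`:
`∑_{|k| < K} |∑_u b_u e^{iku}|² ≤ 2 ∑_{|k| < 2K} (1 - |k|/(2K)) |∑_u b_u e^{iku}|² = 2 ∑_{u,u'} b_u conj(b_{u'}) Fj (2K) (u - u')
≤ 2 (max_u ∑_{u'} Fj (2K) (u - u')) ∑ |b_u|²`, and by `Fj_le`, `Fj_le_sq` (all differences are `≤ 2 < π`) and the separation,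
`∑_{u'} Fj (2K)(u - u') ≤ 2K (3 + 2/(Kσ)) + 2 ∑_{j ≥ 1, jσ ≥ 1/K} π² / (2 K j² σ²) ≤ C (K + 1/σ)` (in the last sum
`j ≥ 1/(Kσ)`: if `Kσ ≥ 1` it is `≤ C / (K σ²) ≤ C / σ`, otherwise `≤ C (1/(K σ²)) · 2 K σ = C/σ`). Duality: with
`S_u = ∑_k c_k e^{iku}`, `∑_u |S_u|² = ∑_k c_k ∑_u conj(S_u) e^{iku} ≤ (∑|c_k|²)^{1/2} (C (K + 1/σ) ∑_u |S_u|²)^{1/2}`. -/
def S_LSD : Prop := ∃ C : ℝ, 1 ≤ C ∧ ∀ (K : ℕ) (σ v : ℝ) (U : Finset ℝ) (c : ℤ → ℂ), 1 ≤ K → 0 < σ → σ ≤ 1 →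
  (∀ u ∈ U, v ≤ u ∧ u ≤ v + 2) → (∀ u ∈ U, ∀ u' ∈ U, u ≠ u' → σ ≤ |u - u'|) →
  ∑ u ∈ U, ‖∑ k ∈ FK K, c k * Complex.exp (((k : ℝ) * u : ℝ) * Complex.I)‖ ^ 2 ≤
    C * (K + 1 / σ) * ∑ k ∈ FK K, ‖c k‖ ^ 2

/-! ### Pointwise bounds -/

/-- **TRI**: trivial bounds. Proof. `cf z t d n ≠ 0` forces `(d - 1)/20 < log n < (d + 1)/20`; the sum of `1/n` over these
`n ≥ 1` is at most `1/n₀ + ∫ ≤ 1 + 1/10` (`n₀` the smallest one); `0 ≤ w ≤ 1`, and `log n ≤ (d + 1)/20`. The weight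
`n (cf)^2` is at most `(…)^2 / n`. -/
def S_TRI : Prop := ∀ (z : ℕ) (t : Fin 3) (d : ℕ) (k : ℤ),
  ‖PF z t d k‖ ≤ 2 * (1 + d) ∧ (t ≠ 2 → ‖PF z t d k‖ ≤ 2) ∧
  ∑ n ∈ sp d, (n : ℝ) * cf z t d n ^ 2 ≤ 2 * (1 + (d : ℝ)) ^ 2 ∧
  (t ≠ 2 → ∑ n ∈ sp d, (n : ℝ) * cf z t d n ^ 2 ≤ 2)

/-- **SMO**: smooth sums by Poisson's formula. Proof. Let `φ(s) = (p + q (s - s₀)) w (β (s - s₀))`, continuous, supported in
`|s - s₀| ≤ 1/β ≤ 1`, quadratic on each half of the support, `|φ|, |φ'|, |φ''| ≤ C (|p| + |q|)` there, and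
`f(x) = φ(log x) x^{-1-iτ}` for `x > 0`, `f(x) = 0` for `x ≤ 0`: continuous with compact support in `(0, ∞)`. For real `ξ`,
`I(ξ) = ∫ f(x) e^{-2πiξx} dx = ∫ φ(s) e^{-iΦ(s)} ds` with `Φ(s) = τ s + 2π ξ e^s` (substitution `x = e^s`),
`Φ' = τ + 2πξe^s`, `Φ'' = 2πξe^s`. Suppose `|Φ'| ≥ B > 0` and `|Φ''| ≤ 10 |Φ'|` on the support. One integration by parts on
each half (the boundary terms cancel by continuity of `φ/Φ'`, and vanish at the ends):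
`I = (1/i) ∫ g e^{-iΦ}`, `g = (φ/Φ')' = φ'/Φ' - φ Φ''/Φ'²`. Second integration by parts on each half:
`∫ g e^{-iΦ} = [- g e^{-iΦ}/(iΦ')] + (1/i) ∫ (g/Φ')' e^{-iΦ}`, all terms `≤ C (|p| + |q|)/B²` (note `Φ''' = Φ''`). So
`|I(ξ)| ≤ C (|p| + |q|) / B²`.
`ξ = 0`: `B = |τ|`, `Φ'' = 0`. `|ξ| ≥ 1`: `|Φ'| ≥ 2π|ξ|e^s - |τ| ≥ (2π - 1)|ξ| e^s` because `|τ| ≤ e^{s₀ - 1} ≤ e^s`;
`B = 5 |ξ| e^{s₀ - 1}`, `|Φ''| ≤ (2π/(2π - 1)) |Φ'|`. In particular `I(ξ) = O(ξ^{-2})`, so Poisson's formula holds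
(`Real.tsum_eq_tsum_fourier_of_rpow_decay` or a similar name): `∑_n f(n) = ∑_{h ∈ ℤ} I(h)`, at most
`C (|p| + |q|) (1/τ² + ∑_{h ≠ 0} e^{2 - 2s₀}/h²)`. -/
def S_SMO : Prop := ∃ C : ℝ, 1 ≤ C ∧ ∀ β p q τ s₀ : ℝ, 1 ≤ β → β ≤ 20 → τ ≠ 0 → |τ| ≤ Real.exp (s₀ - 1) →
  ‖∑ n ∈ Icc 1 ⌊Real.exp (s₀ + 1)⌋₊,
    (((p + q * (Real.log n - s₀)) * w (β * (Real.log n - s₀)) / n : ℝ) : ℂ) * er (-τ) (Real.log n)‖ ≤
  C * (|p| + |q|) * (1 / τ ^ 2 + Real.exp (-(2 * s₀)))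

/-- **SB1**: long smooth factors (from SMO). Proof. SMO with `s₀ = d/20`, `β = 20`, `τ = k`, and `(p, q) = (1, 0)` for
`t = 1`, `(p, q) = (d/20, 1)` for `t = 2` (`log n = s₀ + (log n - s₀)`); `ch k x = er (-k) x`; the summands with
`n ∉ sp d` vanish. -/
def S_SB1 : Prop := ∃ C : ℝ, 1 ≤ C ∧ ∀ (z : ℕ) (t : Fin 3) (d : ℕ) (k : ℤ), t ≠ 0 → k ≠ 0 →
  |(k : ℝ)| ≤ Real.exp ((d : ℝ) / 20 - 1) →
  ‖PF z t d k‖ ≤ C * (1 + d) * (1 / (k : ℝ) ^ 2 + Real.exp (-((d : ℝ) / 10)))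

/-- **SB2**: second derivative test. Proof. `sdb` with `β = 0`: for `M < M' ≤ 2M`,
`|∑_{M < n ≤ M'} n^{-ik}| ≤ C (|k|^{1/2} + M |k|^{-1/2})(1 + log M)`. The support of `cf z t d` lies in
`e^{(d-1)/20} < n < e^{(d+1)/20}` (at most two such blocks, plus possibly `n = 1`), where the weight is a piecewise
monotone function of `n` with total variation and maximum `≤ C (1 + d) e^{-d/20}`; Abel summation. -/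
def S_SB2 : Prop := ∃ C : ℝ, 1 ≤ C ∧ ∀ (z : ℕ) (t : Fin 3) (d : ℕ) (k : ℤ), t ≠ 0 → k ≠ 0 →
  ‖PF z t d k‖ ≤ C * (1 + (d : ℝ)) ^ 2 *
    (|(k : ℝ)| ^ (1 / 2 : ℝ) * Real.exp (-((d : ℝ) / 20)) + |(k : ℝ)| ^ (-(1 / 2) : ℝ))

/-- **SB3**: third derivative test. Proof. As SB2, with `Pool.Agent.W347.EH.kt` for `k = 3`
(`VB 3 N lam = N lam^{1/6} + N^{1/2} lam^{-1/6}`, `lam ≍ |k| / N³`, so `≤ C (N^{1/2} |k|^{1/6} + N |k|^{-1/6})`); the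
condition `Cond 3` for the reversed logarithm and the reduction to `ee` are in `Pool/Agent/W903/EH/BK.lean` (`cond_log`,
`sum_rev`, `VB_scale`, proof of `bk`); take the bound for all initial pieces `m ≤ J` of a dyadic block. Negative `k` by
complex conjugation. Then Abel summation as in SB2; `N^ε ≤ e^{ε (d + 1)}`. -/
def S_SB3 : Prop := ∀ ε : ℝ, 0 < ε → ∃ C : ℝ, 1 ≤ C ∧ ∀ (z : ℕ) (t : Fin 3) (d : ℕ) (k : ℤ), t ≠ 0 → k ≠ 0 →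
  ‖PF z t d k‖ ≤ C * Real.exp (ε * d) *
    (|(k : ℝ)| ^ (1 / 6 : ℝ) * Real.exp (-((d : ℝ) / 40)) + |(k : ℝ)| ^ (-(1 / 6) : ℝ))

/-- **SBV**: van der Corput's bound at all polynomial heights. Proof. `phase_sum M'` (with `M' = 2 M`, so that
`|k| ≤ e^{Md/20} ≤ a^{M'}` for `a ≥ e^{(d-1)/20}`, `d ≥ 40`; for `d < 40` take `C` large) and
`|∫_x^y e^{-iks} ds| ≤ 2/|k|`: for `a ≤ b ≤ 3a`, `|∑_{a ≤ n < b} n^{-1-ik}| ≤ 2/|k| + C a^{-η}`. Abel summation with the weight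
`n cf(n)`, of maximum and total variation `≤ C (1 + d)`. -/
def S_SBV : Prop := ∀ M : ℕ, ∃ C η : ℝ, 1 ≤ C ∧ 0 < η ∧ η ≤ 1 / 2 ∧ ∀ (z : ℕ) (t : Fin 3) (d : ℕ) (k : ℤ),
  t ≠ 0 → k ≠ 0 → |(k : ℝ)| ≤ Real.exp (M * d / 20) →
  ‖PF z t d k‖ ≤ C * (1 + d) * (1 / |(k : ℝ)| + Real.exp (-(η * d / 20)))

/-- **MB**: the Moebius factors, by Vinogradov-Korobov. Proof. For `d < 40` the trivial bound `2` and `C ≥ 2 · 41^B`. For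
`d ≥ 40` and `e^{(d-1)/20} ≤ x ≤ e^{(d+1)/20}` the integer `N = ⌊x⌋` satisfies `N ≥ e^{d/40}`, so `mob_all` with `2 A`, `B` gives
`|∑_{n ≤ x} μ(n) n^{-ik}| ≤ C x / (log x)^B ≤ C' e^{d/20} / (1 + d)^B`. Abel summation with the weight
`w (20 log n - d)/n`, cut at `min (z, e^{(d+1)/20})`, of maximum and total variation `≤ C e^{-d/20}`. -/
def S_MB : Prop := ∀ A B : ℕ, ∃ C : ℝ, 1 ≤ C ∧ ∀ (z d : ℕ) (k : ℤ), |(k : ℝ)| ≤ Real.exp (A * d / 20) →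
  ‖PF z 0 d k‖ ≤ C / (1 + (d : ℝ)) ^ B

/-! ### Large values -/

/-- **KER**: the kernel. Proof. `Wt s = ∑_{j=-2}^{2} w (s - j)`. For `τ = 0` the sum of `1/n` over
`max(1, N e^{-3}) ≤ n ≤ e³ N` is `≤ 7`. If `1 ≤ |τ| ≤ N e^{-3}`: SMO with `β = 1`, `p = 1`, `q = 0`, `s₀ = log N + j`, gives
`≤ C (1/τ² + N^{-2})`. If `|τ| > N e^{-3}`: at most ten dyadic blocks cover `[N e^{-3}, e³ N]`, on each
`|∑_{M < n ≤ M'} n^{-iτ}| ≤ C (|τ|^{1/2} + M |τ|^{-1/2})(1 + log M) ≤ C |τ|^{1/2} (1 + log N)` (`sdb` with `β = 0`;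
`M ≤ e^6 |τ|`), and Abel summation with the weight `Wt(log n - log N)/n` of maximum and total variation `≤ C/N`. The
term `n = 1`, if it occurs, has `N ≤ e³` and is `≤ 1`. -/
def S_KER : Prop := ∃ C : ℝ, 1 ≤ C ∧ ∀ N : ℝ, 1 ≤ N → ‖kn N 0‖ ≤ C ∧ ∀ τ : ℤ, τ ≠ 0 →
  ‖kn N τ‖ ≤ C * (1 / (τ : ℝ) ^ 2 + |(τ : ℝ)| ^ (1 / 2 : ℝ) * (1 + Real.log N) / N)

/-- **KERV**: the kernel at all polynomial heights. Proof. `|τ| ≤ N e^{-3}` as in KER. If `N e^{-3} < |τ| ≤ N^M` and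
`N ≥ e^{12}`: for `a = ⌈N e^{-3}⌉ ≤ x ≤ e³ N`, cut `[a, x)` into at most seven pieces with `b ≤ 3 a`; `phase_sum (2 M)` and
`|∫ e^{-iτs} ds| ≤ 2/|τ| ≤ 2 e³/N` give `|∑_{a ≤ n < x} n^{-1-iτ}| ≤ C N^{-η/2}`; Abel summation with the weight
`Wt(log n - log N)` of total variation `2`. For `N < e^{12}` use the trivial bound `7`. -/
def S_KERV : Prop := ∀ M : ℕ, ∃ C η : ℝ, 1 ≤ C ∧ 0 < η ∧ η ≤ 1 / 2 ∧ ∀ N : ℝ, 1 ≤ N → ‖kn N 0‖ ≤ C ∧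
  ∀ τ : ℤ, τ ≠ 0 → |(τ : ℝ)| ≤ N ^ M → ‖kn N τ‖ ≤ C * (1 / (τ : ℝ) ^ 2 + N ^ (-η))

/-- **HMG**: the Halász-Montgomery inequality. Proof. For complex `b_k`, `k ∈ L`, all `n` with `|log n - log N| ≤ 2` have
`Wt(log n - log N) = 1`, so `∑_{n ∈ s} (1/n) |∑_k b_k n^{-ik}|² ≤ ∑_n Wt(log n - log N)/n |∑_k b_k n^{-ik}|²
= ∑_{k,l} b_k conj(b_l) kn N (k - l) ≤ ∑_{k,l} (|b_k|² + |b_l|²)/2 · |kn N (k - l)| ≤ B ∑|b_k|²` (note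
`kn N (-τ) = conj (kn N τ)`, so row sums and column sums agree). With `b_k = conj (P(k))`, `P(k) = DP s a k`:
`∑_k |P(k)|² = ∑_{n ∈ s} a_n ∑_k b_k n^{-ik} ≤ (∑ n |a_n|²)^{1/2} (B ∑ |P(k)|²)^{1/2}`. -/
def S_HMG : Prop := ∀ (s : Finset ℕ) (a : ℕ → ℂ) (N B : ℝ) (L : Finset ℤ), 1 ≤ N → 0 ≤ B →
  (∀ n ∈ s, 1 ≤ n ∧ |Real.log n - Real.log N| ≤ 2) → (∀ k ∈ L, ∑ l ∈ L, ‖kn N (k - l)‖ ≤ B) →
  ∑ k ∈ L, ‖DP s a k‖ ^ 2 ≤ B * ∑ n ∈ s, (n : ℝ) * ‖a n‖ ^ 2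

/-- **HU**: Huxley's large value theorem (from HMG and KER). Proof. Let `G = ∑ n |a_n|²`, `ℓ = 1 + log N`, `C₁` the constant of
KER. We may assume `L` nonempty; by Cauchy-Schwarz `V² ≤ G ∑_{|log n - log N| ≤ 2} 1/n ≤ 5 G`. Let
`T₀ = (V² N / (4 C₁ G ℓ))²`. For a subset `L'` of `L` in an interval of length `T ≤ max(T₀, 1)` (differences `≤ T`): the row
sums are `≤ C₁ + 4 C₁ + C₁ |L'| T₀^{1/2} ℓ/N` if `T₀ ≥ 1`, so HMG gives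
`|L'| V² ≤ 5 C₁ G + C₁ G |L'| T₀^{1/2} ℓ/N ≤ 5 C₁ G + |L'| V²/4`, i.e. `|L'| ≤ 7 C₁ G V^{-2}`. Cover `(-K, K)` by at most
`2K/T₀ + 2` intervals of length `T₀`: `|L| ≤ (2K/T₀ + 2) 7 C₁ G V^{-2}`, and `1/T₀ = 16 C₁² G² ℓ² V^{-4} N^{-2}`. If `T₀ < 1`:
`|L| ≤ 2K ≤ 2K / T₀ · (5 G V^{-2})`, the same bound. -/
def S_HU : Prop := ∃ C : ℝ, 1 ≤ C ∧ ∀ (s : Finset ℕ) (a : ℕ → ℂ) (N : ℝ) (K : ℕ) (V : ℝ) (L : Finset ℤ), 1 ≤ N →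
  (∀ n ∈ s, 1 ≤ n ∧ |Real.log n - Real.log N| ≤ 2) → 1 ≤ K → 0 < V →
  (∀ k ∈ L, k ∈ FK K ∧ V ≤ ‖DP s a k‖) →
  (L.card : ℝ) ≤ C * (1 + Real.log N) ^ 2 * ((∑ n ∈ s, (n : ℝ) * ‖a n‖ ^ 2) / V ^ 2 +
    K * (∑ n ∈ s, (n : ℝ) * ‖a n‖ ^ 2) ^ 3 / (N ^ 2 * V ^ 6))

/-- **LVM**: large values of a factor, from the mean value theorem for its `m`-th power. Proof. `PF z t d k ^ m = ∑_n b_n n^{-ik}`,
`b_n = ∑ ∏ cf z t d (n_i)` over `n = n_1 ⋯ n_m`, so `b_n = 0` unless `max(1, e^{m (d-1)/20}) ≤ n ≤ e^{m (d+1)/20}`, and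
`|b_n| ≤ (1 + d)^m τ(n)^m / n ≤ C e^{ε d / 4} / n` (divisor bound with a small exponent; `n ≤ e^{m(d+1)/20}`). `mv` with
`N₁ = max(1, e^{m(d-1)/20})`, `N₂ = e^{m(d+1)/20}`, `log(N₂/N₁) ≤ m/10`:
`|L| V^{2m} ≤ C (1 + m/10) ∑ |b_n|² (n + K) ≤ C e^{ε d/2} (∑_{N₁ ≤ n ≤ N₂} 1/n)(1 + K/N₁) ≤ C' e^{ε d/2} (1 + K e^{-md/20})`. -/
def S_LVM : Prop := ∀ (m : ℕ) (ε : ℝ), 1 ≤ m → 0 < ε → ∃ C : ℝ, 1 ≤ C ∧ ∀ (z : ℕ) (t : Fin 3) (d K : ℕ) (V : ℝ)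
  (L : Finset ℤ), 1 ≤ K → 0 < V → (∀ k ∈ L, k ∈ FK K ∧ V ≤ ‖PF z t d k‖) →
  (L.card : ℝ) ≤ C * Real.exp (ε * d) * (1 + K * Real.exp (-(m * d / 20 : ℝ))) / V ^ (2 * m)

/-- **LVH**: large values of a factor, from Huxley's theorem for its `m`-th power (from HU). Proof. As in LVM,
`PF z t d k ^ m = ∑ b_n n^{-ik}` with `|b_n| ≤ C e^{ε d/20}/n` on `max(1, e^{m(d-1)/20}) ≤ n ≤ e^{m(d+1)/20}`. Cut the range of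
`log n` (length `≤ m/10`) into `J ≤ m + 1` pieces of length `≤ 2` centred at points `log N_j ≥ max(0, m(d-1)/20)`; each `k ∈ L` has a piece `j`
with `|P_j(k)| ≥ V^m / J`. Apply HU to each piece: `G = ∑ n |b_n|² ≤ C e^{ε d/10}` (the sum of `1/n` over a piece is `≤ 5`),
`N_j ≥ e^{m(d-1)/20}`, `(1 + log N_j)² ≤ C e^{ε d/10}`. -/
def S_LVH : Prop := ∀ (m : ℕ) (ε : ℝ), 1 ≤ m → 0 < ε → ∃ C : ℝ, 1 ≤ C ∧ ∀ (z : ℕ) (t : Fin 3) (d K : ℕ) (V : ℝ)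
  (L : Finset ℤ), 1 ≤ K → 0 < V → (∀ k ∈ L, k ∈ FK K ∧ V ≤ ‖PF z t d k‖) →
  (L.card : ℝ) ≤ C * Real.exp (ε * d) * (1 / V ^ (2 * m) + K * Real.exp (-(m * d / 10 : ℝ)) / V ^ (6 * m))

end Pool.Agent.Q240.KS
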