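import Mathlib
import Pool.Agent.H43.G.R_pool_sql_team_seeded_3997aac3.Q240.KS.Defs
import Pool.Agent.H43.G.R_seed8.W76.MO.Defs

/-!
# Project KS (helper240), number theory part: statements, second file

Classification of the frequencies and the final counting theorems. `Y` is the logarithm of the main parameter;
`α_i = d_i / (20 Y)` is the relative length of the i-th factor.
-/

set_option autoImplicit false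

namespace Pool.Agent.Q240.KS

open Finset Pool.Agent.H376R2.MR

/-- the optimisation of exponents. `al` is the relative length of the chosen factor, `ki` the exponent of its size,
`ka` the total exponent, `lam` the exponent of the height -/
def OPT (lam0 e0 : ℝ) : Prop := ∀ ε₀ : ℝ, 0 < ε₀ → ε₀ ≤ 1 / 100 → ∀ al lam ki ka : ℝ, 1 / 2000 ≤ al → 0 ≤ ki →
  ki ≤ 1.0065 * ka * al → ε₀ ≤ ka → 0 ≤ lam → lam ≤ lam0 + ε₀ / 1000 →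
  (al ≤ 0.21 ∨ (al - lam / 2 - ε₀ / 1000 ≤ ki ∧ al / 2 - lam / 6 - ε₀ / 1000 ≤ ki ∧ al ≤ lam + ε₀ / 1000)) →
  lam + ε₀ / 1000 ≤ max ka (2 * ka + e0 - lam0) ∨
  ∃ m : ℕ, 1 ≤ m ∧ m ≤ 2000 ∧
    max (2 * m * ki) (min (lam - m * al + 2 * m * ki) (lam - 2 * m * al + 6 * m * ki)) + ε₀ / 1000 ≤
      max ka (2 * ka + e0 - lam0)

/-- **OPT1**. Proof. Let `e = ε₀/1000 ≤ 10^{-5}`, `e ≤ κ/1000`, `κ = ka`, `R = max (κ, 2κ - 1/8)`, `a = m al`; always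
`m ki ≤ 1.0065 a κ` and `lam ≤ 1/2 + e`. So for a given `m`
 (H) `lam - 2a + 6 m ki ≤ κ - e` if `(6.039 a - 1) κ ≤ 2a - 0.5 - 2e` [H1], and `≤ 2κ - 1/8 - e` if
 `(6.039 a - 2) κ ≤ 2a - 0.625 - 2e` [H2];
 (M) `lam - a + 2 m ki ≤ 2κ - 1/8 - e` if `(2 - 2.013 a) κ ≥ 0.625 - a + 2e` [M2].
(A) Suppose some `m` has `a ∈ [0.31, 0.49]`. Then `2 m ki ≤ 2.013 · 0.49 κ ≤ 0.987 κ ≤ κ - e`. And: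
 * `a ≤ 0.3311`: if `κ ≤ 0.13`, [H1]: `0.13 (6.039 a - 1) ≤ 2a - 0.5 - 2e` since `1.2149 a ≥ 0.3766`. If `κ > 0.13`, [H2]: as
 `6.039 a - 2 ≤ 0`, `(6.039 a - 2) κ ≤ 0.13 (6.039 a - 2) ≤ 2a - 0.625 - 2e` since `1.2149 a ≥ 0.3651`.
 * `0.3311 ≤ a ≤ 0.38`: if `κ ≤ 0.16`, [H1] (`1.0337 a ≥ 0.3401`); if `0.16 ≤ κ ≤ 0.25`, [H2] (linear in `κ`: for `κ = 0.16` it
 says `1.0337 a ≥ 0.305 + 2e`, for `κ = 0.25` it says `0.49025 a ≥ 0.125 + 2e`); if `κ ≥ 0.25`, [M2]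
 (`0.25 (2 - 2.013a) ≥ 0.625 - a + 2e` since `0.49675 a ≥ 0.1251`).
 * `0.38 ≤ a ≤ 0.49`: if `κ ≤ 0.2`, [H1] (`0.7922 a ≥ 0.3001`); if `κ ≥ 0.2`, [M2] (`0.5974 a ≥ 0.2251`).
(B) Such an `m` exists if `al ≤ 0.18` (the least `m` with `m al ≥ 0.31`, it is `≤ 621`), if `0.18 < al ≤ 0.245` (`m = 2`), and if
`0.31 ≤ al ≤ 0.49` (`m = 1`).
(C) `0.245 < al < 0.31`: the second alternative of the hypothesis holds. Take `m = 2`. Both `4 ki ≤ 4.026 al κ` and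
(M) `lam - 2 al + 4 ki ≤ 0.01 + e + 4.026 al κ` are `≤ 2κ - 1/8 - e` if `(2 - 4.026 al) κ ≥ 0.1351`. Now
`1.0065 κ al ≥ ki ≥ al/2 - lam/6 - e ≥ al/2 - 0.0834`, and `2 - 4.026 al > 0`, so it suffices that
`(2 - 4.026 al)(al/2 - 0.0834) ≥ 0.1351 · 1.0065 al`; this is a concave quadratic inequality, true at `al = 0.245` and `0.31`.
(D) `al > 0.49`: trivial alternative: `1.0065 κ al ≥ ki ≥ al - lam/2 - e ≥ 0.2399` and `al ≤ lam + e ≤ 0.50003`, so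
`κ ≥ 0.47`, `2κ - 1/8 ≥ 0.8 ≥ lam + e`. -/
def S_OPT1 : Prop := OPT (1 / 2) (3 / 8)

/-- **OPT2**. Proof. Notation as in OPT1; now `R = 2κ`, `lam ≤ 2/3 + e`, and only (M) is used for the minimum.
(A) If some `m` has `a = m al ∈ [0.67, 0.97]`: `2 m ki ≤ 2.013 · 0.97 κ ≤ 1.953 κ ≤ 2κ - e`, and
`lam - a + 2 m ki ≤ 2/3 + e - 0.67 + 1.953 κ ≤ 2κ - e`.
(B) Such an `m` exists if `al ≤ 0.30` (least `m` with `m al ≥ 0.67`; `≤ 1341`), `0.30 < al ≤ 0.3233` (`m = 3`),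
`0.335 ≤ al ≤ 0.485` (`m = 2`), `0.67 ≤ al ≤ 0.97` (`m = 1`).
(C) `0.3233 < al < 0.335` (second alternative): `m = 2`: `4 ki ≤ 1.3488 κ ≤ 2κ - e`, and
`lam - 2 al + 4 ki ≤ 0.0201 + e + 1.3488 κ ≤ 2κ - e` because
`1.0065 κ al ≥ ki ≥ al/2 - lam/6 - e ≥ 0.0504`, so `κ ≥ 0.149`.
(D) `0.485 < al < 0.67` (second alternative): `m = 1`: `2 ki ≤ 1.3488 κ`, and `lam - al + 2 ki ≤ 2κ - e` if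
`(2 - 2.013 al) κ ≥ 0.6667 - al + 2e`; since `1.0065 κ al ≥ al - lam/2 - e ≥ al - 0.3334`, it suffices that
`(2 - 2.013 al)(al - 0.3334) ≥ 1.0065 al (0.66672 - al)`, a concave quadratic inequality, true at both ends.
(E) `al > 0.97` is impossible since `al ≤ lam + e`. -/
def S_OPT2 : Prop := OPT (2 / 3) (2 / 3)

/-- few frequencies with given sizes of the factors -/
def FAR (lam0 e0 : ℝ) : Prop := ∀ ε₃ ε₀ : ℝ, 0 < ε₃ → 0 < ε₀ → ε₀ ≤ 1 / 100 → ∃ ε' η Y₀ : ℝ, 0 < ε' ∧ ε' ≤ ε₀ ∧ 0 < η ∧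
  ∀ Y : ℝ, Y₀ ≤ Y → ∀ d ∈ DY Y, ∀ T₁ : ℝ, Real.exp (ε₃ * Y) ≤ T₁ → T₁ ≤ Real.exp ((lam0 + η) * Y) →
  ∀ L : Finset ℤ, L.Nonempty → (∀ k ∈ L, T₁ ≤ |(k : ℝ)| ∧ |(k : ℝ)| < 2 * T₁) → ∀ κ : Fin 10 → ℝ, (∀ i, 0 ≤ κ i) →
  ε₀ ≤ ∑ i, κ i → (∀ k ∈ L, ∀ i, Real.exp (-((κ i + ε') * Y)) ≤ ‖PF (zY Y) (ty i) (d i) k‖) →
  (L.card : ℝ) ≤ Real.exp ((max (∑ i, κ i) (2 * ∑ i, κ i + e0 - lam0) - η) * Y)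

/-- **FAR**. Proof. Let `e = ε₀/1000`, `ε' = min (e/200000, ε₃/8)`, `η = min (e/2, ε₃/2)`, `Y` large; `λ = log T₁ / Y ∈ [ε₃, lam0 + η]`,
`α_i = d_i/(20 Y)`, `κ = ∑ κ_i`; `|∑ α_i - 1| ≤ 1/Y`, `d_i ≤ 20 (Y + 1) ≤ 40 Y`; `|L| ≤ 4 T₁ + 2 ≤ 6 e^{λY}`.
(1) Suppose some `i ≥ 5` has `2 T₁ ≤ e^{d_i/20 - 1}`. By SB1, `e^{-(κ_i + ε')Y} ≤ C (1 + d_i)(T₁^{-2} + e^{-d_i/10}) ≤ C' Y e^{-2λY}`, so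
`κ ≥ κ_i ≥ 2λ - 2ε'`, and `|L| ≤ 6 e^{λ Y} ≤ e^{(κ - λ + 3ε')Y} ≤ e^{(κ - ε₃ + 3 ε')Y} ≤ e^{(κ - η)Y}`.
(2) Otherwise `α_i ≤ λ + 2/Y ≤ λ + e` for all `i ≥ 5`. By SB2,
`e^{-(κ_i + ε')Y} ≤ C Y² (e^{(λ/2 - α_i)Y} + e^{-λY/2}) ≤ C' Y² e^{(λ/2 - α_i)Y}`, so `κ_i ≥ α_i - λ/2 - 2ε'`. By SB3 (with exponent
`ε'/40`): `e^{-(κ_i+ε')Y} ≤ C e^{ε'Y}(e^{(λ/6 - α_i/2)Y} + e^{-λY/6})`; if `α_i ≤ 2λ/3` this gives `κ_i ≥ α_i/2 - λ/6 - 3ε'`, and if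
`α_i > 2λ/3` then `κ_i ≥ α_i - λ/2 - 2ε' ≥ α_i/2 - λ/6 - 2ε'`. So both lower bounds of the second alternative in `OPT` hold.
(3) For `i < 5`: `PF ≠ 0`, so some `n ≤ zY Y ≤ e^{(Y+2)/5}` has `w (20 log n - d_i) > 0`, `d_i < 4 (Y + 2) + 1`, `α_i ≤ 0.21`.
(4) Some `i` has `α_i ≥ 1/2000` and `κ_i ≤ 1.0065 κ α_i`: otherwise `κ ≥ ∑_{α_i ≥ 1/2000} κ_i > 1.0065 κ (1 - 1/Y - 10/2000) ≥ κ`.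
(5) Apply `OPT lam0 e0` to `(α_i, λ, κ_i, κ)`; let `R = max (κ, 2κ + e0 - lam0)`. If `λ + e ≤ R`: `|L| ≤ 6 e^{λY} ≤ e^{(R - e/2) Y}`.
Otherwise let `m` be as there, `V = e^{-(κ_i + ε')Y}`, `K = ⌈2 T₁⌉ ≤ 3 T₁`: LVM and LVH with `ε = e/400` (`e^{ε d_i} ≤ e^{e Y/10}`, the
constants for all `m ≤ 2000` are bounded) give `|L| ≤ e^{(A + e/2)Y}` for `A = max (2mκ_i, λ - mα_i + 2mκ_i)` and for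
`A = max (2mκ_i, λ - 2mα_i + 6mκ_i)` (the loss `6 m ε' ≤ 12000 ε' ≤ e/10`), hence for the minimum of the two, which is
`max (2mκ_i, min (…, …)) ≤ R - e`. -/
def S_FAR : Prop := ∀ lam0 e0 : ℝ, 0 < lam0 → lam0 ≤ 1 → OPT lam0 e0 → FAR lam0 e0

/-- **NEAR**: the neighbourhood of the line one. Proof. Put `M = 1400`, `C, η` from SBV(M); `C', η'` from KERV(4);
`ε₀ = min (ε₃/3, η/6000, η'/100, 1/1000)`. Let `L` be nonempty. `d_i ≤ 20 (Y+1)`.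
(1) Let `i ≥ 5` with `d_i ≥ Y/100` (i.e. `α_i ≥ 1/2000`). Then `|k| ≤ e^{0.7 Y} ≤ e^{M d_i/20}` and SBV gives
`e^{-ε₀Y} ≤ C (1 + d_i)(e^{-ε₃Y} + e^{-ηY/2000})`, impossible for large `Y`. So `d_i < Y/100` for `i ≥ 5`.
(2) For `i < 5`: `PF ≠ 0` gives `d_i < 4Y + 9`. As `∑ d_i ≥ 20 (Y - 1)`, each `d_i`, `i < 5`, is
`≥ 20 Y - 20 - 5 Y/100 - 4 (4 Y + 9) ≥ 3.8 Y`.
(3) Let `N = e^{d_0/20} ≥ e^{0.19 Y}`. LVM with `m = 4`, `V = e^{-ε₀Y}`, `K = ⌈e^{0.7Y}⌉ + 1`, `ε` small: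
`|L| ≤ C e^{ε₀Y/2}(1 + 2 e^{0.7Y - 0.76Y}) e^{8ε₀Y} ≤ e^{9ε₀Y}`.
(4) For `i = 0, 1` let `N_i = e^{d_i/20}`: the support of `cf` lies in `|log n - log N_i| ≤ 2`; for `k ≠ l` in `L`,
`|k - l| ≤ 2 e^{0.7Y} ≤ N_i^4`, so by KERV the row sums are at most `C' + 4 C' + C' |L| N_i^{-η'} ≤ 6 C'`
(`9 ε₀ ≤ 0.09 η' < 0.19 η'`). By HMG and TRI, `∑_{k ∈ L} ‖PF_i(k)‖² ≤ 12 C'`.
(5) `‖PF_2(k)‖ ≤ C'' / (1 + d_2)^{B+2} ≤ C''' Y^{-B-2}` by MB with `A = 4` (`|k| ≤ e^{0.7Y} ≤ e^{4 d_2/20}`); the other factors are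
`≤ 2` or `≤ 2 (1 + d_9) ≤ 50 Y`. So by Cauchy-Schwarz `∑_L ‖EE‖ ≤ C Y^{-B-1} ≤ Y^{-B}`. -/
def S_NEAR : Prop := ∀ ε₃ : ℝ, 0 < ε₃ → ∃ ε₀ : ℝ, 0 < ε₀ ∧ ε₀ ≤ 1 / 100 ∧ ∀ B : ℕ, ∃ Y₀ : ℝ, ∀ Y : ℝ, Y₀ ≤ Y →
  ∀ d ∈ DY Y, ∀ L : Finset ℤ,
  (∀ k ∈ L, Real.exp (ε₃ * Y) ≤ |(k : ℝ)| ∧ |(k : ℝ)| ≤ Real.exp (0.7 * Y)) →
  (∀ k ∈ L, ∀ i, Real.exp (-(ε₀ * Y)) ≤ ‖PF (zY Y) (ty i) (d i) k‖) →
  ∑ k ∈ L, ‖EE (zY Y) d k‖ ≤ 1 / Y ^ B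

/-- **CLS**: the classification. Proof. Triangle inequality and pigeonhole: insert the definition of `AA`
(`|ed d| ≤ ∑_{j=1}^5 C(5,j) = 31`), and split the frequencies `K₀ ≤ |k| < K` (all nonzero) by `r = ⌊log₂ |k|⌋ ≤ log₂ K` and by
the grid classes `g i = cg G s ‖PF …‖ ≤ G`. -/
def S_CLS : Prop := ∀ (Y : ℝ) (K₀ K G : ℕ) (s u ρ : ℝ) (m : ℤ → ℝ), 1 ≤ K₀ → 0 < ρ →
  ρ ≤ ‖∑ k ∈ (FK K).filter (fun k => (K₀ : ℤ) ≤ |k|), ((m k : ℝ) : ℂ) *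
    Complex.exp (((k : ℝ) * u : ℝ) * Complex.I) * AA (zY Y) Y k‖ →
  ∃ d ∈ DY Y, ∃ r ∈ range (Nat.log 2 K + 1), ∃ g ∈ Fintype.piFinset (fun _ : Fin 10 => range (G + 1)),
    ρ / (31 * (DY Y).card * (Nat.log 2 K + 1) * (G + 1) ^ 10) ≤
      ‖∑ k ∈ LS Y G s K₀ K r d g, ((m k : ℝ) : ℂ) * Complex.exp (((k : ℝ) * u : ℝ) * Complex.I) * EE (zY Y) d k‖

/-- the number of poor intervals of length `h ≥ e^{(1 - lam0 - η)Y}` is at most `e^{(e0 - η)Y}` -/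
def MAINP (lam0 e0 : ℝ) : Prop := ∃ c η Y₀ : ℝ, 0 < c ∧ 0 < η ∧ ∀ Y : ℝ, Y₀ ≤ Y → ∀ h : ℝ,
  Real.exp ((1 - lam0 - η) * Y) ≤ h → h ≤ Real.exp (0.9 * Y) → ∀ U : Finset ℝ,
  (∀ y ∈ U, 0 < y ∧ |Real.log y - Y| ≤ 2 / 5 ∧ (pic y h : ℝ) < c * h / Y) →
  (∀ y ∈ U, ∀ y' ∈ U, y ≠ y' → h ≤ |y - y'|) → (U.card : ℝ) ≤ Real.exp ((e0 - η) * Y)

/-- **MAIN** (from TUP, FE, CLS, NEAR, FAR lam0 e0, LSD, TRI). Proof. Let `ε₄` be as in FE, `ε₃ = min (ε₄, 1/100)`, `ε₀` from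
NEAR(ε₃), `ε', η₁, Y₀` from `FAR` with `(ε₃/2, ε₀/2)` (so `ε' ≤ ε₀/2`), `η = min (η₁/8, 1/100)`, `θ = 1/4` and `c, c₃, L₀` from FE. Let
`K₀ = ⌈e^{ε₃Y}⌉`, `K = ⌈L₀ e^Y/h⌉ ≤ 2 L₀ e^{(lam0 + η)Y} ≤ e^{0.7 Y}`, `G = ⌈3/ε'⌉`, `s = ε' Y`. `h ≥ e^{(1 - 2/3 - 1/100) Y} ≥ e^{Y/4}` and
`h ≤ e^{0.9 Y} ≤ e^{(1 - 4ε₃)Y}`. For `y ∈ U` let `u_y = log (y + h/2) ∈ [Y - 1, Y + 1]`. Take `a` from TUP (with `ε₃/4`); FE and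
the first property in TUP give `c₃ ≤ ‖∑_{K₀ ≤ |k| < K} mK e^{ik u_y} AA (zY Y) Y k‖`, and CLS (with `m k = mK (K₀^3) K k`)
gives a triple `(d, r, g)` with `ρ ≤ ‖∑_{k ∈ LS} mK e^{iku_y} EE (zY Y) d k‖`, where `ρ ≥ Y^{-12}` for large `Y`
(`|DY Y| ≤ (20 Y + 21)^{10}`). There are at most `Y^{12}` triples. Fix one, let `L = LS …`, `U'` the set of `y ∈ U` that belong to it,
`κ_i = ε' g_i`, `κ = ∑ κ_i`. We show that `U'` is empty or `|U'| ≤ e^{(e0 - η₁/2)Y}`; then `|U| ≤ Y^{12} e^{(e0 - 4η)Y} ≤ e^{(e0 - η)Y}`.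
If `L = ∅` then `U' = ∅`. By definition of `cg`: `‖PF_i(k)‖ ≤ e^{-κ_i Y}` if `g_i ≥ 1`, and `≤ 2 (1 + d_i) ≤ 50 Y` always (TRI), so
`‖EE (zY Y) d k‖ ≤ (50 Y)^{10} e^{-κY}` for `k ∈ L`; and `‖PF_i(k)‖ > e^{-(κ_i + ε')Y}` if `g_i < G`.
(1) Some `g_i = G`: `κ ≥ 3` and the sum is `≤ 2K (50Y)^{10} e^{-3Y} < ρ`, so `U' = ∅`.
(2) All `g_i < G` and `κ < ε₀/2`: `‖PF_i(k)‖ ≥ e^{-ε₀Y}`, `e^{ε₃Y} ≤ K₀ ≤ |k| ≤ e^{0.7Y}`; NEAR with `B = 13` gives a sum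
`≤ Y^{-13} < ρ` (`0 ≤ mK ≤ 1` because `K₀^3 ≤ K`). So `U' = ∅`.
(3) All `g_i < G` and `κ ≥ ε₀/2`: let `T₁ = 2^r`; `T₁ > K₀/2 ≥ e^{ε₃Y/2}` and `T₁ ≤ |k| < K ≤ e^{(lam0 + η₁)Y}`. By FAR,
`|L| ≤ e^{(κ - η₁)Y}` or `|L| ≤ e^{(2κ + e0 - lam0 - η₁)Y}`. In the first case the sum is `≤ |L| (50Y)^{10} e^{-κY} < ρ`, `U' = ∅`. In
the second case apply LSD to the points `u_y`, `y ∈ U`, which are `σ`-separated with `σ = h/(3 e^Y)` (derivative of the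
logarithm; `y + h/2 ≤ 3 e^Y`), and `c_k = mK EE` on `L`, `0` elsewhere:
`|U'| ρ² ≤ C (K + 3e^Y/h) |L| (50Y)^{20} e^{-2κY} ≤ Y^{C} e^{(lam0 + η)Y} e^{(e0 - lam0 - η₁)Y} ≤ Y^C e^{(e0 - (7/8) η₁) Y}`. -/
def S_MAIN : Prop := ∀ lam0 e0 : ℝ, 0 < lam0 → lam0 ≤ 2 / 3 → FAR lam0 e0 → MAINP lam0 e0

/-- the first input for the construction: few poor cells of length `x^{1/2 - δ}` -/
def InpI : Prop := ∃ c ε δ₀ : ℝ, 0 < c ∧ 0 < ε ∧ 0 < δ₀ ∧ ∀ δ : ℝ, 0 < δ → δ ≤ δ₀ → ∃ i₀ : ℕ, ∀ i : ℕ, i₀ ≤ i →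
  (((range (Pool.Agent.W76.MO.nc δ i)).filter (fun k =>
    (((Pool.Agent.W76.MO.cell δ i k).filter Nat.Prime).card : ℝ) <
      c * Pool.Agent.W76.MO.hh δ i / i)).card : ℝ) ≤ (2 : ℝ) ^ ((3 / 8 - ε) * i)

/-- the second input: few poor intervals of length `x^{1/3 - δ₁}` -/
def InpII : Prop := ∃ c η δ₁ : ℝ, 0 < c ∧ 0 < η ∧ 0 < δ₁ ∧ ∃ i₀ : ℕ, ∀ i : ℕ, i₀ ≤ i → ∀ L : ℝ,
  (2 : ℝ) ^ ((1 / 3 - δ₁) * i) ≤ L → ∀ U : Finset ℝ,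
  (∀ y ∈ U, (2 : ℝ) ^ i ≤ y ∧ y ≤ (2 : ℝ) ^ (i + 1) ∧ (pic y L : ℝ) < c * L / i) →
  (∀ y ∈ U, ∀ y' ∈ U, y ≠ y' → L ≤ |y - y'|) → (U.card : ℝ) ≤ (2 : ℝ) ^ ((2 / 3 - η) * i)

/-- **FIN1**. Proof. `Y = (i + 1/2) log 2`, `h = hh δ i ≥ 2^{(1/2 - δ) i - 1} ≥ e^{(1/2 - η)Y}` for `δ ≤ η/2` and large `i`,
`U = {2^i + k hh : k bad}`; `|log y - Y| ≤ (log 2)/2 ≤ 2/5`, and `c h / i ≤ c h / Y` because `Y ≤ i`. The bound is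
`e^{(3/8 - η) Y} ≤ 2^{(3/8 - η)(i + 1/2)} ≤ 2^{(3/8 - η/2) i}`. -/
def S_FIN1 : Prop := MAINP (1 / 2) (3 / 8) → InpI

/-- **FIN2**. Proof. `Y = (i + 1/2) log 2`. If `L ≤ e^{0.9 Y}` apply `MAINP` with `h = L` (`δ₁ = η/2`), as in FIN1. If
`L > e^{0.9Y}`, the separated points give `|U| ≤ 2^i / L + 1 ≤ 2^{i/5}` for large `i`. -/
def S_FIN2 : Prop := MAINP (2 / 3) (2 / 3) → InpII

end Pool.Agent.Q240.KS
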